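import Pool.Agent.R989.Sch4

/-!
# The sequence `r_n` of maximal Schur multiplier norms of sign matrices is strictly increasing

For every `n ≥ 1` the largest Schur multiplier norm of an `n × n` sign matrix is strictly smaller
than that of an `(n+1) × (n+1)` sign matrix.

Proof.  Let `M` attain `r_n = γ`, let the contraction `A` and the unit vectors `x, y` satisfy
`(M ∘ A) x = γ y`, `(M ∘ A)^* y = γ x`.  Border `M` by random signs `b` (column), `d` (row) and
corner `1`, and border `A` by `1` followed by two small rotations in the planes spanned by the new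
basis vector and the vectors `u_i ~ b_i / conj y_i`, `v_j ~ - d_j / conj x_j`.  Averaging over all
signs gives an exact formula for the mean value of the tested form, and it exceeds `γ` times the
norms of the test vectors `(x, γ t)`, `(y, γ t)` for small `t`, because the numbers of nonzero
coordinates of `x` and of `y` are both at least `γ ^ 2`.
-/

open scoped Matrix.Norms.L2Operator Matrix
open Matrix

namespace Pool.Agent.Results.MP_c77999_an.StrictlyIncreasing

open Pool.Agent.R989.Sch

theorem strict {n : ℕ} (hn : 1 ≤ n) : r n < r (n + 1) := by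
  by_contra hcon
  push Not at hcon
  obtain ⟨M, hM, hMr⟩ := (r_greatest n).1
  obtain ⟨A, hA, hAs, -⟩ := schurNorm_spec M
  have hγ : 0 < schurNorm M := schurNorm_pos hn M hM
  have hAc : Contr A := contr_of_norm hA
  obtain ⟨x, y, hx, hy, k1, k2⟩ := exists_kkt (M ⊙ A) (hAs ▸ hγ)
  rw [← hAs] at k1 k2
  set γ := schurNorm M with hγdef
  simp only [Matrix.hadamard_apply] at k1 k2
  have hMn : ∀ i j, ‖M i j‖ = 1 := fun i j => by rcases hM i j with h | h <;> simp [h]
  set Wy := ∑ k, (‖y k‖ ^ 2)⁻¹ with hWy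
  set Wx := ∑ k, (‖x k‖ ^ 2)⁻¹ with hWx
  have hWyp : 0 < Wy := wsum_pos y hy
  have hWxp : 0 < Wx := wsum_pos x hx
  have hny : γ ^ 2 ≤ supp y := by
    refine le_supp y γ hy fun i => ?_
    have h1 := cs_le (fun j => M i j * A i j) x
    rw [k1 i, norm_mul, mul_pow, Complex.norm_real, Real.norm_of_nonneg hγ.le, hx, mul_one] at h1
    refine h1.trans ?_
    simp only [norm_mul, hMn, one_mul]
    exact row_le hAc i
  have hnx : γ ^ 2 ≤ supp x := by
    refine le_supp x γ hx fun j => ?_
    have h1 := cs_le (fun i => star (y i)) (fun i => M i j * A i j)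
    rw [k2 j, norm_mul, mul_pow, Complex.norm_real, Real.norm_of_nonneg hγ.le] at h1
    simp only [norm_star, hy, one_mul, norm_mul, hMn] at h1
    exact h1.trans (col_le hAc j)
  have hf0 : form M A x y = γ := by
    rw [form]
    have : ∀ i, star (y i) * ∑ j, M i j * A i j * x j = (γ : ℂ) * ((‖y i‖ ^ 2 : ℝ) : ℂ) := by
      intro i
      rw [k1 i]
      push_cast
      rw [← Complex.conj_mul']
      simp only [RCLike.star_def]
      ring
    rw [Finset.sum_congr rfl fun i _ => this i, ← Finset.mul_sum, ← Complex.ofReal_sum, hy]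
    simp
  have hf1 : form M (dg (wt y) * A) x y = ((γ * (supp y / Wy) : ℝ) : ℂ) := by
    rw [form, ← wt_sq]
    have : ∀ i, star (y i) * ∑ j, M i j * (dg (wt y) * A) i j * x j =
        (γ : ℂ) * ((‖wt y i‖ ^ 2 * ‖y i‖ ^ 2 : ℝ) : ℂ) := by
      intro i
      have e : ∑ j, M i j * (dg (wt y) * A) i j * x j = ((‖wt y i‖ ^ 2 : ℝ) : ℂ) * ∑ j, M i j * A i j * x j := by
        rw [Finset.mul_sum]
        refine Finset.sum_congr rfl fun j _ => ?_
        rw [dg, Matrix.diagonal_mul]
        ring
      rw [e, k1 i]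
      push_cast
      rw [← Complex.conj_mul' (y i)]
      simp only [RCLike.star_def]
      ring
    rw [Finset.sum_congr rfl fun i _ => this i, ← Finset.mul_sum]
    push_cast
    rfl
  have hf2 : form M (A * dg (fun j => -wt x j)) x y = ((γ * (supp x / Wx) : ℝ) : ℂ) := by
    rw [form, ← wt_sq]
    simp only [Finset.mul_sum]
    rw [Finset.sum_comm]
    have : ∀ j, ∑ i, star (y i) * (M i j * (A * dg (fun j => -wt x j)) i j * x j) =
        (γ : ℂ) * ((‖wt x j‖ ^ 2 * ‖x j‖ ^ 2 : ℝ) : ℂ) := by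
      intro j
      have e : ∑ i, star (y i) * (M i j * (A * dg (fun j => -wt x j)) i j * x j) =
          ((‖wt x j‖ ^ 2 : ℝ) : ℂ) * x j * ∑ i, star (y i) * (M i j * A i j) := by
        rw [Finset.mul_sum]
        refine Finset.sum_congr rfl fun i _ => ?_
        rw [dg, Matrix.mul_diagonal, norm_neg]
        ring
      rw [e, k2 j]
      push_cast
      rw [← Complex.conj_mul' (x j)]
      simp only [RCLike.star_def]
      ring
    rw [Finset.sum_congr rfl fun i _ => this i]
    push_cast
    rfl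
  have hp1 : ∑ i, star (y i) * wt y i = ((supp y / Real.sqrt Wy : ℝ) : ℂ) := wt_pair y
  have hp2 : ∑ j, x j * star (-wt x j) = ((-(supp x / Real.sqrt Wx) : ℝ) : ℂ) := by
    have h1 := congrArg star (wt_pair x)
    rw [star_sum] at h1
    have h2 : star (((supp x / Real.sqrt (∑ k, (‖x k‖ ^ 2)⁻¹) : ℝ) : ℂ)) =
        ((supp x / Real.sqrt Wx : ℝ) : ℂ) := Complex.conj_ofReal _
    rw [h2] at h1
    rw [Complex.ofReal_neg, ← h1, ← Finset.sum_neg_distrib]
    refine Finset.sum_congr rfl fun j _ => ?_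
    rw [star_mul', star_star, star_neg]
    ring
  have hz1 : ∑ i, ‖(fun j => -wt x j) i‖ ^ 2 = 1 := by
    simp only [norm_neg]
    exact wt_sum x hx
  refine ineq_t (γ := γ) (Wy := Wy) (Wx := Wx) (ny := supp y) (nx := supp x)
    (T := (form M (dg (wt y) * A * dg (fun j => -wt x j)) x y).re) hγ hny hnx hWyp hWxp ?_
  intro t _ c s c' s' hc hs hc' hs'
  have hcs : ∀ W : ℝ, 0 < W → ∀ c s : ℝ, c = (1 - W * t ^ 2 / 4) / (1 + W * t ^ 2 / 4) →
      s = (Real.sqrt W * t) / (1 + W * t ^ 2 / 4) → c ^ 2 + s ^ 2 = 1 := by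
    intro W hW c s hc hs
    have hD : (1 + W * t ^ 2 / 4) ≠ 0 := by positivity
    rw [hc, hs, div_pow, div_pow, mul_pow, Real.sq_sqrt hW.le]
    field_simp
    ring
  have h1 := hcs Wy hWyp c s hc hs
  have h2 := hcs Wx hWxp c' s' hc' hs'
  have htot := total M A (wt y) (fun j => -wt x j) c s c' s' (γ * t) x y
  have hle : ‖∑ b : Fin n → ℤˣ, ∑ d : Fin n → ℤˣ,
      form (bord M b d) (nA A (uv (wt y) b) (uv (fun j => -wt x j) d) c s c' s')
      (Sum.elim x fun _ => (((γ * t : ℝ)) : ℂ)) (Sum.elim y fun _ => (((γ * t : ℝ)) : ℂ))‖ ≤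
      (Fintype.card (Fin n → ℤˣ) : ℝ) ^ 2 * (γ * (1 + (γ * t) ^ 2)) := by
    refine (norm_sum_le _ _).trans ?_
    refine (Finset.sum_le_sum fun b _ => norm_sum_le _ _).trans ?_
    have hb : ∀ b d : Fin n → ℤˣ,
      ‖form (bord M b d) (nA A (uv (wt y) b) (uv (fun j => -wt x j) d) c s c' s')
      (Sum.elim x fun _ => (((γ * t : ℝ)) : ℂ)) (Sum.elim y fun _ => (((γ * t : ℝ)) : ℂ))‖ ≤
        γ * (1 + (γ * t) ^ 2) := by
      intro b d
      refine (bord_bound M hM b d _ (nA_contr hAc (uv_unit _ (wt_sum y hy) b) (uv_unit _ hz1 d) h1 h2)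
        x y (γ * t) hx hy).trans ?_
      refine mul_le_mul_of_nonneg_right ?_ (by positivity)
      rw [← hMr]
      exact hcon
    refine (Finset.sum_le_sum fun b _ => Finset.sum_le_sum fun d _ => hb b d).trans (le_of_eq ?_)
    simp only [Finset.sum_const, Finset.card_univ, nsmul_eq_mul]
    ring
  rw [htot, hf0, hf1, hf2, hp1, hp2, norm_mul, norm_pow, Complex.norm_natCast] at hle
  have hN : (0 : ℝ) < (Fintype.card (Fin n → ℤˣ) : ℝ) ^ 2 := by
    have : 0 < Fintype.card (Fin n → ℤˣ) := Fintype.card_pos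
    positivity
  have hle2 := le_of_mul_le_mul_left hle hN
  have hre := (Complex.re_le_norm _).trans hle2
  refine le_trans (le_of_eq ?_) hre
  simp only [Complex.add_re, Complex.sub_re]
  have q1 : (((1 - c : ℝ) : ℂ) * ((1 - c' : ℝ) : ℂ) * form M (dg (wt y) * A * dg (fun j => -wt x j)) x y).re =
      (1 - c) * (1 - c') * (form M (dg (wt y) * A * dg (fun j => -wt x j)) x y).re := by
    rw [← Complex.ofReal_mul, Complex.re_ofReal_mul]
  rw [q1]
  norm_cast
  ring

/-- For every `n ≥ 1`, the maximal Schur norm of sign matrices strictly increases. -/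
theorem result :
    (∀ n : ℕ, IsGreatest (signNorms n) (r n)) ∧ ∀ n : ℕ, 1 ≤ n → r n < r (n + 1) :=
  ⟨r_greatest, fun _ hn => strict hn⟩

end Pool.Agent.Results.MP_c77999_an.StrictlyIncreasing
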